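import Pool.Agent.N728.QG.Def
import Pool.Agent.N49.QL.B4

set_option autoImplicit false

/-! # Project QG: subtask B4L (slowly varying weights, Liouville). -/

namespace Pool.Agent.N707.QG

open Finset Pool.Agent.N728.QG

noncomputable section

lemma lam_abs (n : ℤ) : |lam n| ≤ 1 := by
  unfold lam
  split_ifs
  · simp
  · rw [abs_pow, abs_neg, abs_one, one_pow]

lemma lam_mul (a b : ℤ) : lam (a * b) = lam a * lam b := by
  unfold lam
  by_cases ha : a = 0
  · simp [ha]
  by_cases hb : b = 0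
  · simp [hb]
  rw [if_neg (mul_ne_zero ha hb), if_neg ha, if_neg hb, Int.natAbs_mul,
    ArithmeticFunction.cardFactors_mul (Int.natAbs_ne_zero.2 ha) (Int.natAbs_ne_zero.2 hb), pow_add]

/-- sum of the Liouville function over a class up to a height -/
def LS (H m r : ℕ) : ℝ := ∑ n ∈ (Icc 1 H).filter (fun n => n ≡ r [MOD m]), lam (n : ℤ)

lemma card_small (S : Finset ℕ) (N : ℕ) (hS : ∀ v ∈ S, 1 ≤ v ∧ v ≤ N) : S.card ≤ N := by
  have h1 : S ⊆ Icc 1 N := fun v hv => Finset.mem_Icc.2 (hS v hv)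
  have h2 := Finset.card_le_card h1
  simpa using h2

lemma abs_sum_le_card (S : Finset ℕ) (f : ℕ → ℝ) (hf : ∀ v ∈ S, |f v| ≤ 1) :
    |∑ v ∈ S, f v| ≤ S.card := by
  calc |∑ v ∈ S, f v| ≤ ∑ v ∈ S, |f v| := Finset.abs_sum_le_sum_abs _ _
    _ ≤ ∑ v ∈ S, (1 : ℝ) := Finset.sum_le_sum hf
    _ = S.card := by simp

/-- one value of `u` -/
lemma per_u {c : ℤ} (hc : c ≠ 0) {q u : ℕ} (v0 : ℕ) (hu : 1 ≤ u) (hq : 1 ≤ q) :
    ∃ γ m r : ℕ, 1 ≤ γ ∧ γ ≤ c.natAbs * q ∧ γ * m = u * q ∧ Nat.Coprime r m ∧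
      ∀ V : ℕ, |∑ v ∈ (Icc 1 V).filter (fun v => v ≡ v0 [MOD q]), lam ((u : ℤ) * v + c)| ≤
        |LS ((((u : ℤ) * V + c) / (γ : ℤ)).toNat) m r| + 2 * c.natAbs := by
  classical
  have huz : (0 : ℤ) < u := by exact_mod_cast hu
  set b : ℤ := (u : ℤ) * v0 + c with hb
  set w : ℤ := ((u * q : ℕ) : ℤ) with hw
  have hw0 : 0 < w := by rw [hw]; exact_mod_cast Nat.mul_pos hu hq
  obtain ⟨γ, hγ⟩ : ∃ γ : ℕ, γ = Int.gcd b w := ⟨_, rfl⟩
  have hγ0 : 0 < γ := by rw [hγ]; exact Int.gcd_pos_of_ne_zero_right _ hw0.ne'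
  have hγz : (0 : ℤ) < γ := by exact_mod_cast hγ0
  have hγb : (γ : ℤ) ∣ b := by rw [hγ]; exact Int.gcd_dvd_left ..
  have hγw : (γ : ℤ) ∣ w := by rw [hγ]; exact Int.gcd_dvd_right ..
  obtain ⟨a, ha⟩ := hγb
  have hγn : γ ∣ u * q := Int.natCast_dvd_natCast.1 hγw
  obtain ⟨m, hm⟩ := hγn
  have hm0 : 0 < m := by
    rcases Nat.eq_zero_or_pos m with h | h
    · rw [h, mul_zero] at hm
      have := Nat.mul_pos hu hq
      omega
    · exact h
  have hmz : (0 : ℤ) < m := by exact_mod_cast hm0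
  have hwm : w = γ * m := by rw [hw, hm]; push_cast; ring
  have hgcd : Int.gcd a m = 1 := by
    have h1 : Int.gcd b w = γ * Int.gcd a m := by
      rw [ha, hwm, Int.gcd_mul_left, Int.natAbs_natCast]
    rw [← hγ] at h1
    exact Nat.eq_of_mul_eq_mul_left hγ0 (by rw [← h1, mul_one])
  have hrn : 0 ≤ a % (m : ℤ) := Int.emod_nonneg _ hmz.ne'
  have hr : (((a % (m : ℤ)).toNat : ℕ) : ℤ) = a % (m : ℤ) := Int.toNat_of_nonneg hrn
  have hrmod : (((a % (m : ℤ)).toNat : ℕ) : ℤ) ≡ a [ZMOD (m : ℤ)] := by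
    rw [hr]; exact Int.mod_modEq _ _
  refine ⟨γ, m, (a % (m : ℤ)).toNat, hγ0, ?_, hm.symm, ?_, ?_⟩
  · -- `γ ∣ c q`
    have h1 : (γ : ℤ) ∣ c * q := by
      have h2 : c * q = b * q - w * v0 := by rw [hb, hw]; push_cast; ring
      rw [h2, ha]
      exact dvd_sub (Dvd.dvd.mul_right (Dvd.intro _ rfl) _) (Dvd.dvd.mul_right hγw _)
    have h3 : γ ∣ (c * q).natAbs := Int.natCast_dvd.1 h1
    rw [Int.natAbs_mul, Int.natAbs_natCast] at h3
    exact Nat.le_of_dvd (Nat.mul_pos (Int.natAbs_pos.2 hc) hq) h3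
  · apply Nat.coprime_of_dvd
    intro p hp hpr hpm
    have h2 : (p : ℤ) ∣ a % (m : ℤ) := by
      rw [← hr]; exact_mod_cast hpr
    have h3 : (p : ℤ) ∣ (m : ℤ) := by exact_mod_cast hpm
    have h4 : (p : ℤ) ∣ a := by
      have := Int.emod_add_mul_ediv a (m : ℤ)
      rw [← this]
      exact dvd_add h2 (Dvd.dvd.mul_right h3 _)
    have h5 := Int.dvd_coe_gcd h4 h3
    rw [hgcd] at h5
    have h6 : p ∣ 1 := by exact_mod_cast h5
    exact hp.one_lt.ne' (Nat.dvd_one.1 h6)
  · intro V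
    set r : ℕ := (a % (m : ℤ)).toNat with hrdef
    set P := (Icc 1 V).filter (fun v => v ≡ v0 [MOD q]) with hP
    set H : ℕ := (((u : ℤ) * V + c) / (γ : ℤ)).toNat with hH
    set N := (Icc 1 H).filter (fun n => n ≡ r [MOD m]) with hN
    -- the terms with a nonpositive value
    have e1 : ∑ v ∈ P, lam ((u : ℤ) * v + c) =
        ∑ v ∈ P.filter (fun v : ℕ => 0 < (u : ℤ) * v + c), lam ((u : ℤ) * v + c) +
        ∑ v ∈ P.filter (fun v : ℕ => ¬ 0 < (u : ℤ) * v + c), lam ((u : ℤ) * v + c) :=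
      (Finset.sum_filter_add_sum_filter_not _ _ _).symm
    have e2 : |∑ v ∈ P.filter (fun v : ℕ => ¬ 0 < (u : ℤ) * v + c), lam ((u : ℤ) * v + c)| ≤
        c.natAbs := by
      refine (abs_sum_le_card _ _ fun v _ => lam_abs _).trans ?_
      have := card_small (P.filter (fun v : ℕ => ¬ 0 < (u : ℤ) * v + c)) c.natAbs (by
        intro v hv
        rw [Finset.mem_filter, hP, Finset.mem_filter, Finset.mem_Icc] at hv
        refine ⟨hv.1.1.1, ?_⟩
        have h1 : (v : ℤ) ≤ (u : ℤ) * v := le_mul_of_one_le_left (by positivity) (by exact_mod_cast hu)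
        omega)
      exact_mod_cast this
    -- the terms with a positive value
    have e3 : ∑ v ∈ P.filter (fun v : ℕ => 0 < (u : ℤ) * v + c), lam ((u : ℤ) * v + c) =
        ∑ n ∈ N.filter (fun n : ℕ => c < (γ : ℤ) * n), lam (γ : ℤ) * lam (n : ℤ) := by
      have key : ∀ v : ℕ, v ≡ v0 [MOD q] → ∃ k : ℤ, (v : ℤ) = v0 + q * k ∧
          (u : ℤ) * v + c = γ * (a + m * k) := by
        intro v hv
        have h1 : (v : ℤ) ≡ v0 [ZMOD q] := Int.natCast_modEq_iff.mpr hv
        obtain ⟨k, hk⟩ := h1.symm.dvd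
        refine ⟨k, by linarith, ?_⟩
        have h2 : (v : ℤ) = v0 + q * k := by linarith
        have h3 : (γ : ℤ) * (a + m * k) = b + w * k := by rw [ha, hwm]; ring
        rw [h3, h2, hb, hw]
        push_cast
        ring
      refine Finset.sum_bij (fun (v : ℕ) _ => (((u : ℤ) * v + c) / (γ : ℤ)).toNat) ?_ ?_ ?_ ?_
      · intro v hv
        rw [Finset.mem_filter, hP, Finset.mem_filter, Finset.mem_Icc] at hv
        obtain ⟨⟨⟨hv1, hvV⟩, hvq⟩, hpos⟩ := hv
        obtain ⟨k, hk1, hk2⟩ := key v hvq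
        have h1 : ((u : ℤ) * v + c) / (γ : ℤ) = a + m * k := by
          rw [hk2]; exact Int.mul_ediv_cancel_left _ hγz.ne'
        have h2 : 0 < a + m * k := by
          rw [hk2] at hpos
          exact (mul_pos_iff_of_pos_left hγz).1 hpos
        have h3 : (((a + m * k).toNat : ℕ) : ℤ) = a + m * k := Int.toNat_of_nonneg h2.le
        rw [Finset.mem_filter, hN, Finset.mem_filter, Finset.mem_Icc, h1]
        refine ⟨⟨⟨by omega, ?_⟩, ?_⟩, ?_⟩
        · rw [hH]
          apply Int.toNat_le_toNat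
          rw [← h1]
          apply Int.ediv_le_ediv hγz
          have : (v : ℤ) ≤ V := by exact_mod_cast hvV
          have := mul_le_mul_of_nonneg_left this huz.le
          omega
        · rw [← Int.natCast_modEq_iff, h3]
          exact Int.ModEq.trans (Int.modEq_iff_dvd.mpr ⟨-k, by ring⟩) hrmod.symm
        · rw [h3, ← hk2]
          have : 0 < (u : ℤ) * v := mul_pos huz (by exact_mod_cast hv1)
          omega
      · intro v hv v' hv' heq
        rw [Finset.mem_filter, hP, Finset.mem_filter, Finset.mem_Icc] at hv hv'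
        obtain ⟨k, hk1, hk2⟩ := key v hv.1.2
        obtain ⟨k', hk1', hk2'⟩ := key v' hv'.1.2
        have h1 : ((u : ℤ) * v + c) / (γ : ℤ) = a + m * k := by
          rw [hk2]; exact Int.mul_ediv_cancel_left _ hγz.ne'
        have h1' : ((u : ℤ) * v' + c) / (γ : ℤ) = a + m * k' := by
          rw [hk2']; exact Int.mul_ediv_cancel_left _ hγz.ne'
        have h2 : 0 < a + m * k := (mul_pos_iff_of_pos_left hγz).1 (by rw [← hk2]; exact hv.2)
        have h2' : 0 < a + m * k' := (mul_pos_iff_of_pos_left hγz).1 (by rw [← hk2']; exact hv'.2)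
        rw [h1, h1'] at heq
        have h3 : a + m * k = a + m * k' := by omega
        have h4 : (u : ℤ) * v + c = (u : ℤ) * v' + c := by rw [hk2, hk2', h3]
        have h5 : (u : ℤ) * v = (u : ℤ) * v' := by omega
        have h6 := mul_left_cancel₀ huz.ne' h5
        exact_mod_cast h6
      · intro n hn
        rw [Finset.mem_filter, hN, Finset.mem_filter, Finset.mem_Icc] at hn
        obtain ⟨⟨⟨hn1, hnH⟩, hnr⟩, hcn⟩ := hn
        have h1 : (n : ℤ) ≡ a [ZMOD (m : ℤ)] := (Int.natCast_modEq_iff.mpr hnr).trans hrmod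
        obtain ⟨k, hk⟩ := h1.symm.dvd
        have h2 : (γ : ℤ) * n = (u : ℤ) * (v0 + q * k) + c := by
          have h3 : (n : ℤ) = a + m * k := by linarith
          have h4 : (γ : ℤ) * n = b + w * k := by rw [h3, ha, hwm]; ring
          rw [h4, hb, hw]
          push_cast
          ring
        have h5 : 0 < (v0 : ℤ) + q * k := by
          by_contra hcon
          have : (u : ℤ) * (v0 + q * k) ≤ 0 :=
            mul_nonpos_of_nonneg_of_nonpos huz.le (by omega)
          omega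
        have h6 : ((((v0 : ℤ) + q * k).toNat : ℕ) : ℤ) = v0 + q * k := Int.toNat_of_nonneg h5.le
        have hnpos : 0 < (γ : ℤ) * n := mul_pos hγz (by exact_mod_cast hn1)
        refine ⟨((v0 : ℤ) + q * k).toNat, ?_, ?_⟩
        · rw [Finset.mem_filter, hP, Finset.mem_filter, Finset.mem_Icc, h6, ← h2]
          refine ⟨⟨⟨by omega, ?_⟩, ?_⟩, hnpos⟩
          · have h7 : (n : ℤ) ≤ ((u : ℤ) * V + c) / (γ : ℤ) := by
              have : 0 < H := by omega
              omega
            have h8 : (γ : ℤ) * n ≤ (u : ℤ) * V + c := by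
              have := (Int.le_ediv_iff_mul_le hγz).1 h7
              linarith
            have h9 : (u : ℤ) * (v0 + q * k) ≤ u * V := by omega
            have h10 := le_of_mul_le_mul_left h9 huz
            omega
          · rw [← Int.natCast_modEq_iff, h6]
            exact (Int.modEq_iff_dvd.mpr ⟨-k, by ring⟩)
        · show (((u : ℤ) * ((((v0 : ℤ) + q * k).toNat : ℕ) : ℤ) + c) / (γ : ℤ)).toNat = n
          rw [h6, ← h2, Int.mul_ediv_cancel_left _ hγz.ne']
          simp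
      · intro v hv
        rw [Finset.mem_filter, hP, Finset.mem_filter, Finset.mem_Icc] at hv
        obtain ⟨k, hk1, hk2⟩ := key v hv.1.2
        have h1 : ((u : ℤ) * v + c) / (γ : ℤ) = a + m * k := by
          rw [hk2]; exact Int.mul_ediv_cancel_left _ hγz.ne'
        have h2 : 0 < a + m * k := (mul_pos_iff_of_pos_left hγz).1 (by rw [← hk2]; exact hv.2)
        have h3 : (((a + m * k).toNat : ℕ) : ℤ) = a + m * k := Int.toNat_of_nonneg h2.le
        rw [h1, h3, hk2, lam_mul]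
    -- the terms with a small value
    have e4 : |∑ n ∈ N.filter (fun n : ℕ => c < (γ : ℤ) * n), lam (γ : ℤ) * lam (n : ℤ)| ≤
        |∑ n ∈ N.filter (fun n : ℕ => c < (γ : ℤ) * n), lam (n : ℤ)| := by
      rw [← Finset.mul_sum, abs_mul]
      exact mul_le_of_le_one_left (abs_nonneg _) (lam_abs _)
    have e5 : ∑ n ∈ N, lam (n : ℤ) =
        ∑ n ∈ N.filter (fun n : ℕ => c < (γ : ℤ) * n), lam (n : ℤ) +
        ∑ n ∈ N.filter (fun n : ℕ => ¬ c < (γ : ℤ) * n), lam (n : ℤ) :=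
      (Finset.sum_filter_add_sum_filter_not _ _ _).symm
    have e6 : |∑ n ∈ N.filter (fun n : ℕ => ¬ c < (γ : ℤ) * n), lam (n : ℤ)| ≤ c.natAbs := by
      refine (abs_sum_le_card _ _ fun v _ => lam_abs _).trans ?_
      have := card_small (N.filter (fun n : ℕ => ¬ c < (γ : ℤ) * n)) c.natAbs (by
        intro n hn
        rw [Finset.mem_filter, hN, Finset.mem_filter, Finset.mem_Icc] at hn
        refine ⟨hn.1.1.1, ?_⟩
        have h1 : (n : ℤ) ≤ (γ : ℤ) * n := le_mul_of_one_le_left (by positivity) (by exact_mod_cast hγ0)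
        omega)
      exact_mod_cast this
    have e7 : LS H m r = ∑ n ∈ N, lam (n : ℤ) := rfl
    rw [e7, e1, e3]
    have t1 := abs_add_le (∑ n ∈ N.filter (fun n : ℕ => c < (γ : ℤ) * n), lam (γ : ℤ) * lam (n : ℤ))
      (∑ v ∈ P.filter (fun v : ℕ => ¬ 0 < (u : ℤ) * v + c), lam ((u : ℤ) * v + c))
    have t2 : |∑ n ∈ N.filter (fun n : ℕ => c < (γ : ℤ) * n), lam (n : ℤ)| ≤
        |∑ n ∈ N, lam (n : ℤ)| + c.natAbs := by
      have h1 : ∑ n ∈ N.filter (fun n : ℕ => c < (γ : ℤ) * n), lam (n : ℤ) =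
          ∑ n ∈ N, lam (n : ℤ) - ∑ n ∈ N.filter (fun n : ℕ => ¬ c < (γ : ℤ) * n), lam (n : ℤ) := by
        rw [e5]; ring
      rw [h1]
      exact (abs_sub _ _).trans (by linarith)
    linarith

/-- the sum over one value of the gcd -/
lemma sum_gcd (X0 KB : ℕ) (hBV : ∀ x : ℕ, X0 ≤ x → ∀ D : ℕ, (D : ℝ) ^ 2 * Real.log x ^ KB ≤ x →
      ∀ r h : ℕ → ℕ, (∀ m ∈ Icc 1 D, Nat.Coprime (r m) m) → (∀ m, h m ≤ x) →
      ∑ m ∈ Icc 1 D, |∑ n ∈ (Icc 1 (h m)).filter (fun n => n ≡ r m [MOD m]), lam n| ≤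
        x / Real.log x ^ 2)
    {x T q : ℕ} (hx : X0 ≤ x) (hD : ((T * q : ℕ) : ℝ) ^ 2 * Real.log x ^ KB ≤ x) (hq : 1 ≤ q)
    (S : Finset ℕ) (g0 : ℕ) (γ m r hh : ℕ → ℕ) (hS : ∀ u ∈ S, 1 ≤ u ∧ u ≤ T)
    (hγ1 : ∀ u ∈ S, γ u = g0) (hg0 : 1 ≤ g0) (hγm : ∀ u ∈ S, γ u * m u = u * q)
    (hcop : ∀ u ∈ S, Nat.Coprime (r u) (m u)) (hhx : ∀ u ∈ S, hh u ≤ x) :
    ∑ u ∈ S, |LS (hh u) (m u) (r u)| ≤ x / Real.log x ^ 2 := by
  classical
  have hgm : ∀ u ∈ S, g0 * m u = u * q := fun u hu => by rw [← hγ1 u hu]; exact hγm u hu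
  have hdiv : ∀ u ∈ S, g0 * m u / q = u := by
    intro u hu
    rw [hgm u hu]
    exact Nat.mul_div_cancel u (by omega)
  set r' : ℕ → ℕ := fun M => if g0 * M / q ∈ S ∧ g0 * M / q * q = g0 * M then r (g0 * M / q) else 1
    with hr'
  set h' : ℕ → ℕ := fun M => if g0 * M / q ∈ S ∧ g0 * M / q * q = g0 * M then hh (g0 * M / q) else 0
    with hh'
  have hmain := hBV x hx (T * q) hD r' h' (by
    intro M _
    simp only [hr']
    split_ifs with h
    · have h5 := hcop _ h.1
      have h6 : m (g0 * M / q) = M := by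
        have h7 := hgm _ h.1
        rw [h.2] at h7
        exact Nat.eq_of_mul_eq_mul_left hg0 h7
      rw [h6] at h5
      exact h5
    · exact Nat.coprime_one_left M) (by
    intro M
    simp only [hh']
    split_ifs with h
    · exact hhx _ h.1
    · exact Nat.zero_le _)
  refine le_trans ?_ hmain
  have hinj : Set.InjOn m (S : Set ℕ) := by
    intro a ha b hb hab
    have h1 := hgm a ha
    have h2 := hgm b hb
    rw [hab, h2] at h1
    exact (Nat.eq_of_mul_eq_mul_right (by omega) h1).symm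
  have hcong : ∑ u ∈ S, |LS (hh u) (m u) (r u)| = ∑ M ∈ S.image m,
      |∑ n ∈ (Icc 1 (h' M)).filter (fun n => n ≡ r' M [MOD M]), lam n| := by
    rw [Finset.sum_image hinj]
    apply Finset.sum_congr rfl
    intro u hu
    have h5 := hdiv u hu
    have h6 : r' (m u) = r u := by
      simp only [hr', h5]
      rw [if_pos ⟨hu, (hgm u hu).symm⟩]
    have h7 : h' (m u) = hh u := by
      simp only [hh', h5]
      rw [if_pos ⟨hu, (hgm u hu).symm⟩]
    rw [h6, h7]
    rfl
  rw [hcong]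
  apply Finset.sum_le_sum_of_subset_of_nonneg
  · intro M hM
    rw [Finset.mem_image] at hM
    obtain ⟨u, hu, rfl⟩ := hM
    obtain ⟨ha, hb⟩ := hS u hu
    have h1 := hgm u hu
    rw [Finset.mem_Icc]
    constructor
    · rcases Nat.eq_zero_or_pos (m u) with h | h
      · rw [h, mul_zero] at h1
        have := Nat.mul_pos ha hq
        omega
      · exact h
    · calc m u ≤ g0 * m u := Nat.le_mul_of_pos_left _ hg0
        _ = u * q := h1
        _ ≤ T * q := Nat.mul_le_mul_right q hb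
  · intro _ _ _; exact abs_nonneg _

theorem t_B4L (h : S_BVL) : ∀ c : ℤ, c ≠ 0 → S_B4L c := by
  intro c hc
  obtain ⟨KB, X0, hBV⟩ := h 2
  refine ⟨KB + 1, ?_⟩
  intro K D q ε hK hD hq hε
  set cn : ℕ := c.natAbs with hcn
  have hcn0 : 1 ≤ cn := Int.natAbs_pos.2 hc
  obtain ⟨B0, hB0⟩ := Filter.eventually_atTop.mp
    ((Pool.Agent.N49.QL.log_small (8 * K * cn) ε hε).and
      ((Pool.Agent.N49.QL.log_large (q ^ 2 * 3 ^ KB)).and
      ((Pool.Agent.N49.QL.log_large (4 * K * (cn * q) * (K + cn) / ε)).and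
        (Pool.Agent.N49.QL.log_large 1))))
  refine ⟨max B0 (max X0 (K + cn)), ?_⟩
  intro B hB T hBT hTB U1 U2 u0 v0 Gv hU hUT hG hG'
  have hBB0 : B0 ≤ B := (le_max_left _ _).trans hB
  have hBX0 : X0 ≤ B := ((le_max_left _ _).trans (le_max_right _ _)).trans hB
  have hBK : K + cn ≤ B := ((le_max_right _ _).trans (le_max_right _ _)).trans hB
  obtain ⟨b1, b2, b3, b4⟩ := hB0 B hBB0
  have hTpos : 1 ≤ T := by
    rcases Nat.eq_zero_or_pos T with h | h
    · subst h
      rw [zero_pow (by omega)] at hBT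
      omega
    · exact h
  have hB0' : (0 : ℝ) < B := by exact_mod_cast (by omega : 0 < B)
  have hB1' : (1 : ℝ) ≤ B := by exact_mod_cast (by omega : 1 ≤ B)
  have hT1' : (1 : ℝ) ≤ T := by exact_mod_cast hTpos
  have hT0' : (0 : ℝ) < T := by linarith
  have hK1 : (1 : ℝ) ≤ K := by exact_mod_cast hK
  have hc1 : (1 : ℝ) ≤ cn := by exact_mod_cast hcn0
  have hq1 : (1 : ℝ) ≤ q := by exact_mod_cast hq
  have hL : 0 < Real.log B := by linarith
  classical
  set S := (Ioc U1 U2).filter (fun u => u ≡ u0 [MOD q]) with hS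
  have hSmem : ∀ u ∈ S, 1 ≤ u ∧ u ≤ T := by
    intro u hu
    rw [hS, Finset.mem_filter, Finset.mem_Ioc] at hu
    exact ⟨by omega, by omega⟩
  have hper : ∀ u : ℕ, 1 ≤ u → ∃ γ m r : ℕ, 1 ≤ γ ∧ γ ≤ c.natAbs * q ∧ γ * m = u * q ∧
      Nat.Coprime r m ∧
      ∀ V : ℕ, |∑ v ∈ (Icc 1 V).filter (fun v => v ≡ v0 [MOD q]), lam ((u : ℤ) * v + c)| ≤
        |LS ((((u : ℤ) * V + c) / (γ : ℤ)).toNat) m r| + 2 * c.natAbs :=
    fun u hu => per_u hc v0 hu hq
  choose! γ m r hγ1 hγ2 hγm hcop hV using hper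
  have hmax : ∀ u : ℕ, ∃ V ∈ range (K * B + 1), ∀ V' ∈ range (K * B + 1),
      |LS ((((u : ℤ) * V' + c) / (γ u : ℤ)).toNat) (m u) (r u)| ≤
      |LS ((((u : ℤ) * V + c) / (γ u : ℤ)).toNat) (m u) (r u)| := by
    intro u
    exact Finset.exists_max_image (range (K * B + 1)) (fun V : ℕ =>
      |LS ((((u : ℤ) * V + c) / (γ u : ℤ)).toNat) (m u) (r u)|) ⟨0, by simp⟩
  choose Vs hVs1 hVs2 using hmax
  set x : ℕ := K * B * T + cn with hx
  set hh : ℕ → ℕ := fun u => (((u : ℤ) * Vs u + c) / (γ u : ℤ)).toNat with hhh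
  have hhx : ∀ u ∈ S, hh u ≤ x := by
    intro u hu
    obtain ⟨ha, hb⟩ := hSmem u hu
    have h5 := hVs1 u
    rw [Finset.mem_range] at h5
    have hγz : (0 : ℤ) < γ u := by exact_mod_cast hγ1 u ha
    simp only [hhh]
    rw [Int.toNat_le]
    apply Int.ediv_le_of_le_mul hγz
    have h6 : (Vs u : ℤ) ≤ K * B := by exact_mod_cast (by omega : Vs u ≤ K * B)
    have h7 : ((u : ℕ) : ℤ) ≤ T := by exact_mod_cast hb
    have h8 : (u : ℤ) * Vs u ≤ T * (K * B) := mul_le_mul h7 h6 (by positivity) (by positivity)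
    have h9 : c ≤ cn := by omega
    have h10 : (x : ℤ) = K * B * T + cn := by rw [hx]; push_cast; ring
    have h11 : (0 : ℤ) ≤ x := by positivity
    have h12 : (x : ℤ) ≤ x * γ u := le_mul_of_one_le_right h11 (by exact_mod_cast hγ1 u ha)
    have h13 : (u : ℤ) * Vs u + c ≤ x := by rw [h10]; linarith
    linarith
  have hxB : B ≤ x := by
    rw [hx]
    have h1 : B * 1 ≤ K * B * T := by
      calc B * 1 = 1 * B * 1 := by ring
        _ ≤ K * B * T := Nat.mul_le_mul (Nat.mul_le_mul_right B hK) hTpos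
    omega
  have hTleB : (T : ℝ) ≤ B := by
    refine le_trans ?_ hTB
    exact le_mul_of_one_le_right hT0'.le (one_le_pow₀ b4)
  have hxreal : (x : ℝ) ≤ (K + cn) * (B * T) := by
    rw [hx]
    push_cast
    have h6 : (1 : ℝ) ≤ B * T := one_le_mul_of_one_le_of_one_le hB1' hT1'
    nlinarith
  have hx3 : Real.log x ≤ 3 * Real.log B := by
    have h5 : (x : ℝ) ≤ B ^ 3 := by
      have h6 : ((K : ℝ) + cn) ≤ B := by exact_mod_cast hBK
      calc (x : ℝ) ≤ (K + cn) * (B * T) := hxreal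
        _ ≤ B * (B * B) := by
            apply mul_le_mul h6 _ (by positivity) hB0'.le
            exact mul_le_mul_of_nonneg_left hTleB hB0'.le
        _ = B ^ 3 := by ring
    have h7 : (0 : ℝ) < x := by
      have : (B : ℝ) ≤ x := by exact_mod_cast hxB
      linarith
    calc Real.log x ≤ Real.log ((B : ℝ) ^ 3) := Real.log_le_log h7 h5
      _ = 3 * Real.log B := by rw [Real.log_pow]; norm_num
  have hxlow : Real.log B ≤ Real.log x := Real.log_le_log hB0' (by exact_mod_cast hxB)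
  have hDD : ((T * q : ℕ) : ℝ) ^ 2 * Real.log x ^ KB ≤ x := by
    have h5 : Real.log x ^ KB ≤ (3 * Real.log B) ^ KB := pow_le_pow_left₀ (by linarith) hx3 KB
    have h6 : (x : ℝ) ≥ B * T := by
      rw [hx]; push_cast
      have h7 : (B : ℝ) * T ≤ K * (B * T) := le_mul_of_one_le_left (by positivity) hK1
      nlinarith
    calc ((T * q : ℕ) : ℝ) ^ 2 * Real.log x ^ KB ≤ ((T * q : ℕ) : ℝ) ^ 2 * (3 * Real.log B) ^ KB :=
          mul_le_mul_of_nonneg_left h5 (by positivity)
      _ = T * ((T * Real.log B ^ KB) * (q ^ 2 * 3 ^ KB)) := by push_cast; rw [mul_pow]; ring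
      _ ≤ T * ((T * Real.log B ^ KB) * Real.log B) := by
          apply mul_le_mul_of_nonneg_left _ hT0'.le
          apply mul_le_mul_of_nonneg_left b2
          positivity
      _ = T * (T * Real.log B ^ (KB + 1)) := by ring
      _ ≤ T * B := mul_le_mul_of_nonneg_left hTB hT0'.le
      _ ≤ x := by rw [mul_comm]; exact h6
  set Em : ℕ → ℝ := fun u => |LS (hh u) (m u) (r u)| with hEm
  have hEsum : ∑ u ∈ S, Em u ≤ (cn * q : ℕ) * (x / Real.log x ^ 2) := by
    have hmap : ∀ u ∈ S, γ u ∈ Icc 1 (cn * q) := fun u hu =>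
      Finset.mem_Icc.2 ⟨hγ1 u (hSmem u hu).1, hγ2 u (hSmem u hu).1⟩
    rw [← Finset.sum_fiberwise_of_maps_to hmap]
    calc ∑ g0 ∈ Icc 1 (cn * q), ∑ u ∈ S.filter (fun u => γ u = g0), Em u
        ≤ ∑ g0 ∈ Icc 1 (cn * q), (x : ℝ) / Real.log x ^ 2 := by
          apply Finset.sum_le_sum
          intro g0 hg0
          refine sum_gcd X0 KB hBV (hBX0.trans hxB) hDD hq (S.filter (fun u => γ u = g0)) g0 γ m r hh
            ?_ ?_ (Finset.mem_Icc.1 hg0).1 ?_ ?_ ?_
          · intro u hu; exact hSmem u (Finset.mem_filter.1 hu).1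
          · intro u hu; exact (Finset.mem_filter.1 hu).2
          · intro u hu; exact hγm u (hSmem u (Finset.mem_filter.1 hu).1).1
          · intro u hu; exact hcop u (hSmem u (Finset.mem_filter.1 hu).1).1
          · intro u hu; exact hhx u (Finset.mem_filter.1 hu).1
      _ = _ := by rw [Finset.sum_const, nsmul_eq_mul]; simp
  have hScard : (S.card : ℝ) ≤ T := by
    have h5 : S.card ≤ (Ioc U1 U2).card := Finset.card_filter_le _ _
    rw [Nat.card_Ioc] at h5
    exact_mod_cast (by omega : S.card ≤ T)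
  have hone : ∀ u ∈ S, |∑ v ∈ (Icc 1 (K * B)).filter (fun v => v ≡ v0 [MOD q]),
      Gv v * lam (((u * v : ℕ) : ℤ) + c)| ≤ (1 + K * Real.log B) * (Em u + 2 * cn) := by
    intro u hu
    obtain ⟨ha, hb⟩ := hSmem u hu
    have h1 := Pool.Agent.N49.QL.abel Gv
      (fun v => if v ≡ v0 [MOD q] then lam ((u : ℤ) * v + c) else 0) (K * B) (Real.log B / B)
      (Em u + 2 * cn) (by positivity) hG hG' (by
        intro V hVK
        rw [← Finset.sum_filter]
        refine (hV u ha V).trans ?_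
        have h2 := hVs2 u V (Finset.mem_range.mpr (by omega))
        have h3 : |LS ((((u : ℤ) * Vs u + c) / (γ u : ℤ)).toNat) (m u) (r u)| = Em u := rfl
        rw [h3] at h2
        linarith)
    have h2 : (1 + ((K * B : ℕ) : ℝ) * (Real.log B / B)) = 1 + K * Real.log B := by
      push_cast
      field_simp
    rw [h2] at h1
    have h3 : ∑ v ∈ (Icc 1 (K * B)).filter (fun v => v ≡ v0 [MOD q]),
        Gv v * lam (((u * v : ℕ) : ℤ) + c) = ∑ v ∈ Icc 1 (K * B), Gv v *
        (fun v => if v ≡ v0 [MOD q] then lam ((u : ℤ) * v + c) else 0) v := by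
      rw [Finset.sum_filter]
      apply Finset.sum_congr rfl
      intro v _
      simp only
      split_ifs
      · push_cast; rfl
      · rw [mul_zero]
    rw [h3]
    exact h1
  have htotal : |∑ u ∈ S, ∑ v ∈ (Icc 1 (K * B)).filter (fun v => v ≡ v0 [MOD q]),
      Gv v * lam (((u * v : ℕ) : ℤ) + c)| ≤
      (1 + K * Real.log B) * ((cn * q : ℕ) * (x / Real.log x ^ 2)) +
        (1 + K * Real.log B) * (2 * cn * T) := by
    have h1 : 0 ≤ 1 + K * Real.log B := by positivity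
    refine (Finset.abs_sum_le_sum_abs _ _).trans ((Finset.sum_le_sum hone).trans ?_)
    calc ∑ u ∈ S, (1 + K * Real.log B) * (Em u + 2 * cn)
        = (1 + K * Real.log B) * (∑ u ∈ S, Em u) + (1 + K * Real.log B) * (2 * cn * S.card) := by
          rw [← Finset.mul_sum, Finset.sum_add_distrib, Finset.sum_const, nsmul_eq_mul]
          ring
      _ ≤ _ := by gcongr
  have hlog2 : 1 + K * Real.log B ≤ 2 * K * Real.log B := by nlinarith
  have t1 : (1 + K * Real.log B) * ((cn * q : ℕ) * (x / Real.log x ^ 2)) ≤ ε / 2 * (B * T) := by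
    have h5 : (x : ℝ) / Real.log x ^ 2 ≤ (K + cn) * (B * T) / Real.log B ^ 2 := by
      apply div_le_div₀ (by positivity) hxreal (by positivity)
      exact pow_le_pow_left₀ hL.le hxlow 2
    have h6 : (1 + K * Real.log B) * ((cn * q : ℕ) * (x / Real.log x ^ 2)) ≤
        (2 * K * Real.log B) * ((cn * q : ℕ) * ((K + cn) * (B * T) / Real.log B ^ 2)) := by
      apply mul_le_mul hlog2 _ (by positivity) (by positivity)
      exact mul_le_mul_of_nonneg_left h5 (by positivity)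
    have h7 : (2 * K * Real.log B) * (((cn * q : ℕ) : ℝ) * ((K + cn) * (B * T) / Real.log B ^ 2)) =
        (2 * K * (cn * q) * (K + cn)) * (B * T) / Real.log B := by
      push_cast
      field_simp
    rw [h7] at h6
    refine h6.trans ?_
    rw [div_le_iff₀ hL]
    rw [div_le_iff₀ hε] at b3
    have h10 : 0 < (B : ℝ) * T := mul_pos hB0' hT0'
    have h11 := mul_le_mul_of_nonneg_right b3 h10.le
    nlinarith
  have t2 : (1 + K * Real.log B) * (2 * cn * T) ≤ ε / 2 * (B * T) := by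
    calc (1 + K * Real.log B) * (2 * cn * T) ≤ (2 * K * Real.log B) * (2 * cn * T) := by
          apply mul_le_mul_of_nonneg_right hlog2 (by positivity)
      _ = (8 * K * cn * Real.log B) / 2 * T := by ring
      _ ≤ (ε * B) / 2 * T := by
          apply mul_le_mul_of_nonneg_right _ hT0'.le
          linarith
      _ = ε / 2 * (B * T) := by ring
  refine htotal.trans ?_
  rw [zero_div, zero_mul, zero_add]
  linarith

end

end Pool.Agent.N707.QG
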